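import Mathlib
import Pool.Agent.Helper43.Eulerian

/-!
# The symmetric decomposition of the chromatic numerator polynomial

Write `∑ₙ χ_G(n) zⁿ = h_G(z) / (1 - z)^(d+1)`.  By deletion and contraction
`h_∅(z) - h_G(z) = (1 - z) C_G(z)` with `C_G = C_{G-e} + h_{G/e}`, so `C_G` has nonnegative
coefficients because all numerators `h_H` do; this gives the decomposition
`a = -(C(z) + z^d C(1/z))`, `b = h_∅(z)/z + C(z) + z^(d-1) C(1/z)`.
-/

set_option autoImplicit false

open Polynomial

namespace Pool.Agent.Results.MP_9dade1_co.SymmetricDecomposition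

universe u

/-- `p` is `m`-symmetric: `deg p ≤ m` and `p_i = p_{m-i}` for `0 ≤ i ≤ m`. -/
def IsSymmetric (m : ℕ) (p : Polynomial ℤ) : Prop :=
  p.natDegree ≤ m ∧ ∀ i ≤ m, p.coeff i = p.coeff (m - i)

/-- `h` is the polynomial with `∑ₙ χ_G(n) zⁿ = h(z) / (1 - z)^(d+1)`, where `d` is the number of
vertices of `G` and `χ_G(n)` is the number of proper colourings of `G` with `n` colours. -/
def IsChromaticNumerator {V : Type u} [Fintype V] (G : SimpleGraph V) (h : Polynomial ℤ) : Prop :=
  (h : PowerSeries ℤ) = (1 - PowerSeries.X) ^ (Fintype.card V + 1) *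
    PowerSeries.mk fun n => (Nat.card (G.Coloring (Fin n)) : ℤ)

lemma coeff_reflect' (N : ℕ) (f : Polynomial ℤ) {i : ℕ} (hi : i ≤ N) :
    (f.reflect N).coeff i = f.coeff (N - i) := by
  rw [coeff_reflect, revAt_le hi]

lemma natDegree_reflect_le' (N : ℕ) (f : Polynomial ℤ) (hf : f.natDegree ≤ N) :
    (f.reflect N).natDegree ≤ N := by
  rw [natDegree_le_iff_coeff_eq_zero]
  intro i hi
  rw [coeff_reflect, revAt_eq_self_of_lt hi]
  exact coeff_eq_zero_of_natDegree_lt (by omega)

lemma unique_zero (d : ℕ) (α β : Polynomial ℤ) (hα : IsSymmetric (d + 1) α)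
    (hβ : IsSymmetric d β) (h : α + X * β = 0) : α = 0 ∧ β = 0 := by
  have h0 : α.coeff 0 = 0 := by
    have := congrArg (fun p => coeff p 0) h
    simpa using this
  have hs : ∀ i, α.coeff (i + 1) = - β.coeff i := by
    intro i
    have := congrArg (fun p => coeff p (i + 1)) h
    simp only [coeff_add, coeff_X_mul, coeff_zero] at this
    linarith
  have hα0 : ∀ i ≤ d + 1, α.coeff i = 0 := by
    intro i
    induction i with
    | zero => intro _; exact h0
    | succ i ih =>
      intro hi
      have h1 : β.coeff i = β.coeff (d - i) := hβ.2 i (by omega)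
      have h2 := hs (d - i)
      have h3 : α.coeff i = α.coeff (d + 1 - i) := hα.2 i (by omega)
      have h4 : d - i + 1 = d + 1 - i := by omega
      rw [h4] at h2
      rw [hs i, h1]
      have h5 := ih (by omega)
      linarith
  have hαz : α = 0 := by
    ext i
    rw [coeff_zero]
    by_cases hi : i ≤ d + 1
    · exact hα0 i hi
    · exact coeff_eq_zero_of_natDegree_lt (by have := hα.1; omega)
  refine ⟨hαz, ?_⟩
  ext i
  have := hs i
  rw [hαz, coeff_zero] at this
  rw [coeff_zero]
  linarith

lemma IsSymmetric.sub {m : ℕ} {p q : Polynomial ℤ} (hp : IsSymmetric m p) (hq : IsSymmetric m q) :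
    IsSymmetric m (p - q) := by
  refine ⟨(natDegree_sub_le _ _).trans (max_le hp.1 hq.1), fun i hi => ?_⟩
  rw [coeff_sub, coeff_sub, hp.2 i hi, hq.2 i hi]

/-- For every finite simple graph `G` on `d ≥ 1` vertices, the numerator polynomial `h` of its
chromatic generating function exists, and in its unique decomposition `h = a + z b` with `a`
`d`-symmetric and `b` `(d-1)`-symmetric all coefficients of `a` are nonpositive and all
coefficients of `b` are nonnegative. -/
theorem result {V : Type u} [Fintype V] [Nonempty V] (G : SimpleGraph V) :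
    ∃ h : Polynomial ℤ, IsChromaticNumerator G h ∧
      ∃ a b : Polynomial ℤ, IsSymmetric (Fintype.card V) a ∧ IsSymmetric (Fintype.card V - 1) b ∧
        h = a + X * b ∧
        (∀ i, a.coeff i ≤ 0) ∧ (∀ i, 0 ≤ b.coeff i) ∧
        ∀ a' b' : Polynomial ℤ, IsSymmetric (Fintype.card V) a' →
          IsSymmetric (Fintype.card V - 1) b' → h = a' + X * b' → a' = a ∧ b' = b := by
  obtain ⟨d, hd⟩ : ∃ d, Fintype.card V = d + 1 :=
    ⟨Fintype.card V - 1, by have := Fintype.card_pos (α := V); omega⟩
  obtain ⟨p, hp1, hp2, hp3, hp4⟩ :=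
    Pool.Agent.Helper43.Coloring.good_gen hd (⊥ : SimpleGraph V)
  obtain ⟨C, hC1, hC2, hC3, hC4⟩ := Pool.Agent.Helper43.Coloring.good_diff hd G
  rw [hd]
  have hCd : C.coeff (d + 1) = 0 := coeff_eq_zero_of_natDegree_lt (by omega)
  -- symmetry of `p`
  have hps : ∀ i j, i + j = d + 2 → p.coeff i = p.coeff j := by
    intro i j hij
    have h1 := Pool.Agent.Helper43.Coloring.coeff_bot_symm hd hij
    rw [← hp1, Polynomial.coeff_coe, Polynomial.coeff_coe] at h1
    exact h1
  set h : Polynomial ℤ := p - (1 - X) * C with hh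
  set a : Polynomial ℤ := -(C + C.reflect (d + 1)) with ha
  set b : Polynomial ℤ := p.divX + C + C.reflect d with hb
  have hacoeff : ∀ i ≤ d + 1, a.coeff i = -(C.coeff i + C.coeff (d + 1 - i)) := by
    intro i hi
    rw [ha, coeff_neg, coeff_add, coeff_reflect' _ _ hi]
  have hbcoeff : ∀ i ≤ d, b.coeff i = p.coeff (i + 1) + C.coeff i + C.coeff (d - i) := by
    intro i hi
    rw [hb, coeff_add, coeff_add, coeff_divX, coeff_reflect' _ _ hi]
  have hadeg : a.natDegree ≤ d + 1 := by
    rw [ha, natDegree_neg]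
    exact (natDegree_add_le _ _).trans
      (max_le (by omega) (natDegree_reflect_le' _ _ (by omega)))
  have hbdeg : b.natDegree ≤ d := by
    rw [hb]
    refine (natDegree_add_le _ _).trans (max_le ((natDegree_add_le _ _).trans (max_le ?_ hC4))
      (natDegree_reflect_le' _ _ hC4))
    rw [natDegree_divX_eq_natDegree_tsub_one]
    omega
  have hasymm : IsSymmetric (d + 1) a := by
    refine ⟨hadeg, fun i hi => ?_⟩
    have e1 : d + 1 - (d + 1 - i) = i := by omega
    rw [hacoeff i hi, hacoeff (d + 1 - i) (by omega), e1]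
    ring
  have hbsymm : IsSymmetric d b := by
    refine ⟨hbdeg, fun i hi => ?_⟩
    have e1 : d - (d - i) = i := by omega
    rw [hbcoeff i hi, hbcoeff (d - i) (by omega), e1, hps (i + 1) (d - i + 1) (by omega)]
    ring
  have hsum : h = a + X * b := by
    ext i
    rw [hh]
    cases i with
    | zero =>
      rw [coeff_add, coeff_X_mul_zero, hacoeff 0 (by omega), sub_mul, one_mul, coeff_sub,
        coeff_sub, coeff_X_mul_zero, hp3, hC3, Nat.sub_zero, hCd]
      ring
    | succ i =>
      rw [coeff_add, coeff_X_mul, sub_mul, one_mul, coeff_sub, coeff_sub, coeff_X_mul]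
      by_cases hi : i ≤ d
      · rw [hacoeff (i + 1) (by omega), hbcoeff i hi]
        have e1 : d + 1 - (i + 1) = d - i := by omega
        rw [e1]
        ring
      · have e1 : p.coeff (i + 1) = 0 := coeff_eq_zero_of_natDegree_lt (by omega)
        have e2 : C.coeff (i + 1) = 0 := coeff_eq_zero_of_natDegree_lt (by omega)
        have e3 : C.coeff i = 0 := coeff_eq_zero_of_natDegree_lt (by omega)
        have e4 : a.coeff (i + 1) = 0 := coeff_eq_zero_of_natDegree_lt (by omega)
        have e5 : b.coeff i = 0 := coeff_eq_zero_of_natDegree_lt (by omega)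
        rw [e1, e2, e3, e4, e5]
        ring
  refine ⟨h, ?_, a, b, hasymm, hbsymm, hsum, ?_, ?_, ?_⟩
  · unfold IsChromaticNumerator
    have h1 : (h : PowerSeries ℤ) =
        (p : PowerSeries ℤ) - (1 - PowerSeries.X) * (C : PowerSeries ℤ) := by
      rw [hh]
      push_cast
      rfl
    rw [h1, hp1, hC1, hd]
    have h2 : (PowerSeries.mk fun n => (Nat.card (G.Coloring (Fin n)) : ℤ)) =
        Pool.Agent.Helper43.Coloring.gen G := rfl
    rw [h2]
    ring
  · intro i
    by_cases hi : i ≤ d + 1
    · rw [hacoeff i hi]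
      have := hC2 i
      have := hC2 (d + 1 - i)
      linarith
    · rw [coeff_eq_zero_of_natDegree_lt (by omega : a.natDegree < i)]
  · intro i
    by_cases hi : i ≤ d
    · rw [hbcoeff i hi]
      have := hp2 (i + 1)
      have := hC2 i
      have := hC2 (d - i)
      linarith
    · rw [coeff_eq_zero_of_natDegree_lt (by omega : b.natDegree < i)]
  · intro a' b' ha' hb' hab'
    have h1 := unique_zero d (a' - a) (b' - b) (ha'.sub hasymm) (hb'.sub hbsymm) (by
      have h2 : a' - a + X * (b' - b) = (a' + X * b') - (a + X * b) := by ring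
      rw [h2, ← hab', ← hsum, sub_self])
    exact ⟨sub_eq_zero.mp h1.1, sub_eq_zero.mp h1.2⟩

end Pool.Agent.Results.MP_9dade1_co.SymmetricDecomposition
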